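import Pool.Agent.Helper56K9.GS.Planes

/-!
# The conjectures of Galkin and Shinder and of Hassett and Kuznetsov: planes

Let `X` be a smooth cubic fourfold which contains a plane. The following is proved, for every rank of
the group `A(X)` of the Hodge classes in `H^4(X, ℤ)`.

1. The variety of lines `F(X)` is birational to `S^[2]` for a K3 surface `S` if and only if `X` has an
   associated K3 surface (in the sense of Hassett or of Kuznetsov), if and only if there is a Hodge
   class `v` such that `4` does not divide `disc v`, if and only if `X` is in a Hassett divisor `C_d` such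
   that `4` does not divide `d`. So the conjecture of Galkin and Shinder and the conjecture of
   Hassett and Kuznetsov are equivalent for the cubic fourfolds which contain a plane; in
   general the condition of Galkin and Shinder is stronger (Addington).
2. If the quadric fibration defined by some plane `P` in `X` has an odd class `T`, that is
   `T.(h - P)` is odd, then the conjecture of Galkin and Shinder is true for `X`: it is rational
   (Hassett) and `F(X)` is birational to `S^[2]` for a K3 surface `S`.
3. The conjecture is also true for `X` if there is a Hodge class `v` such that `4` does not divide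
   `disc v`, and `disc v ≤ 49`; for instance if `X` is in `C_18` or `C_30`.

The known properties of `H^4(X, ℤ)` which are used are the fields of `H4.IsCohomology`; for 3. the
rationality of the cubic fourfolds in `C_14` (Bolognesi, Russo, Staglianò), `C_26`, `C_38` and `C_42`
(Russo, Staglianò) is a hypothesis. The theorem of Addington which translates `F(X) ~ S^[2]` is used in
the definition `HilbertSquare`, and the theorems of Hassett, Addington and Thomas in the definition
`AssociatedK3`.

Idea of the proof. Let `P` be the class of the plane, `v` a class such that `4` does not divide `disc v`,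
and `b = 3 P.v - P.h v.h`. Then `2 disc (x P + y v) - m ^ 2 = 3` is solved explicitly; the solution
depends on `b` modulo `8` and `disc v` modulo `16`.
-/

set_option autoImplicit false

namespace Pool.Agent.Results.MP_4d0966_ag.Planes

open Pool.Agent.Y95.Q

variable {X : CubicFourfold}

/-- `X` is in the Hassett divisor `C_d`: there is a Hodge class `v` such that `h` and `v` span a
saturated group of discriminant `d`. -/
def InDivisor (H : H4 X) (d : ℤ) : Prop := ∃ v, H.IsHodge v ∧ H.Saturated v ∧ H.disc v = d

/-- `X` is in a Hassett divisor `C_d`, where `d = (2 n ^ 2 + 2 n + 2) / a ^ 2` with integers `a` and `n`.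
By a theorem of Addington this means that the variety of lines `F(X)` is birational to the Hilbert
square `S^[2]` of some K3 surface `S`. -/
def HilbertSquare (H : H4 X) : Prop :=
  ∃ d, (∃ a n : ℤ, a ^ 2 * d = 2 * n ^ 2 + 2 * n + 2) ∧ InDivisor H d

/-- `X` is in a Hassett divisor `C_d` with an admissible `d`. By theorems of Hassett and of Addington
and Thomas this means that `X` has an associated K3 surface, in the sense of Hassett or of
Kuznetsov. -/
def AssociatedK3 (H : H4 X) : Prop := ∃ d, Admissible d ∧ InDivisor H d

/-- The known rationality of the cubic fourfolds in `C_14`, `C_26`, `C_38` and `C_42`. -/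
def KnownRational (H : H4 X) : Prop :=
  ∀ d : ℤ, (d = 14 ∨ d = 26 ∨ d = 38 ∨ d = 42) → InDivisor H d → X.IsRational

/-- **Cubic fourfolds which contain a plane.** -/
theorem result {H : H4 X} (hH : H.IsCohomology) (P : X.Plane) :
    (HilbertSquare H ↔ AssociatedK3 H) ∧
    (HilbertSquare H ↔ ∃ v, H.IsHodge v ∧ ¬ 4 ∣ H.disc v) ∧
    (HilbertSquare H ↔ ∃ d, ¬ 4 ∣ d ∧ InDivisor H d) ∧
    ((∃ T, H.IsHodge T ∧ Odd (H.ip T (H.h - H.cl P))) → X.IsRational ∧ HilbertSquare H) ∧
    (KnownRational H → (∃ v, H.IsHodge v ∧ ¬ 4 ∣ H.disc v ∧ H.disc v ≤ 49) →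
      X.IsRational ∧ HilbertSquare H) := by
  have hplane : ∀ v, H.IsHodge v → ¬ 4 ∣ H.disc v → HilbertSquare H := by
    intro v hv h4
    obtain ⟨w, n, hw, hn⟩ := Pool.Agent.Helper56K9.GS.value8 hH ((hH.cl_range _).1 ⟨P, rfl⟩).1 hv
      (Pool.Agent.Helper56K9.GS.disc_plane hH P) h4
    exact Pool.Agent.Helper56K9.GS.hSq_of_value hH hw hn
  refine ⟨⟨Pool.Agent.Helper56K9.GS.HSq.k3 hH, ?_⟩, ⟨?_, ?_⟩, ⟨?_, ?_⟩, ?_, ?_⟩
  · rintro ⟨d, hd, v, hv, -, rfl⟩
    exact hplane v hv hd.2.1
  · rintro ⟨d, ⟨a, n, h⟩, v, hv, -, rfl⟩
    exact ⟨v, hv, four_not_dvd h⟩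
  · rintro ⟨v, hv, h4⟩
    exact hplane v hv h4
  · rintro ⟨d, ⟨a, n, h⟩, hd⟩
    exact ⟨d, four_not_dvd h, hd⟩
  · rintro ⟨d, h4, v, hv, -, rfl⟩
    exact hplane v hv h4
  · rintro ⟨T, hT, hodd⟩
    refine Pool.Agent.Helper56K9.GS.rational_of_odd hH (P := P) hT ?_
    obtain ⟨-, h1, -⟩ := (hH.cl_range _).1 ⟨P, rfl⟩
    rw [Pool.Agent.Helper56K9.GS.bil_apply, h1, hH.comm (H.cl P) T]
    rw [H4.ip_sub_right, Int.odd_iff] at hodd
    omega
  · rintro hR ⟨v, hv, h4, h49⟩
    exact ⟨Pool.Agent.Helper56K9.GS.rational_of_plane hH hR P hv h4 h49, hplane v hv h4⟩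

end Pool.Agent.Results.MP_4d0966_ag.Planes
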