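import Pool.Agent.Helper56K9.GS.Pow2

/-!
# The conjectures of Galkin and Shinder and of Hassett and Kuznetsov: the divisors `C_d`, `d = 2 * 4 ^ k`

Let `X` be a smooth cubic fourfold in a Hassett divisor `C_d` with `d = 2 * 4 ^ k`, `k ≥ 1`, that is in
`C_8`, `C_32`, `C_128`, …; nothing else is assumed about the group `A(X)` of the Hodge classes. Galkin and
Shinder predict that `X` is rational if and only if `F(X)` is birational to `S^[2]` for a K3 surface `S`
(`HilbertSquare`), Hassett and Kuznetsov predict that `X` is rational if and only if it has an associated
K3 surface (`AssociatedK3`). We prove that the two conditions are equivalent for `X`, and that they hold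
if and only if some Hodge class has a discriminant which is not divisible by `4`.

The known properties of `H^4(X, ℤ)` which are used are the fields of `H4.IsCohomology`. The theorem of
Addington which translates `F(X) ~ S^[2]` is used in the definition `HilbertSquare`, and the theorems of
Hassett, Addington and Thomas in the definition `AssociatedK3`.

Idea of the proof. One has to solve `2 disc v - m ^ 2 = 3`. Since `2 d` is a square this equation can be
written as a product `s t = E(y)`, where the class of `t` modulo a power of two is given, and one
chooses `t` as a fixed number times a prime number `l` for which the discriminant `D` of `A(X)` is a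
square modulo `l`. If the rank is three, `l` exists by the law of quadratic reciprocity unless `D` is
twice a square. In this last case, in which the class of `l` modulo `8` decides whether `2` is a square
modulo `l`, one may replace `l` by `3 l`, as all `E(y)` are divisible by `3`; because `2` is not a
square modulo `3` one of the two choices is possible. So there are no spinor exceptions.
-/

set_option autoImplicit false

namespace Pool.Agent.Results.MP_4d0966_ag.PowersOfTwo

open Pool.Agent.Y95.Q

variable {X : CubicFourfold}

/-- `X` is in the Hassett divisor `C_d`: there is a Hodge class `v` such that `h` and `v` span a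
saturated group of discriminant `d`. -/
def InDivisor (H : H4 X) (d : ℤ) : Prop := ∃ v, H.IsHodge v ∧ H.Saturated v ∧ H.disc v = d

/-- `X` is in a Hassett divisor `C_d`, where `d = (2 n ^ 2 + 2 n + 2) / a ^ 2` with integers `a` and `n`.
By a theorem of Addington this means that the variety of lines `F(X)` is birational to the Hilbert
square `S^[2]` of some K3 surface `S`. -/
def HilbertSquare (H : H4 X) : Prop :=
  ∃ d, (∃ a n : ℤ, a ^ 2 * d = 2 * n ^ 2 + 2 * n + 2) ∧ InDivisor H d

/-- `X` is in a Hassett divisor `C_d` with an admissible `d`. By theorems of Hassett and of Addington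
and Thomas this means that `X` has an associated K3 surface, in the sense of Hassett or of
Kuznetsov. -/
def AssociatedK3 (H : H4 X) : Prop := ∃ d, Admissible d ∧ InDivisor H d

/-- **The divisors `C_d`, `d = 2 * 4 ^ k`.** -/
theorem result {H : H4 X} (hH : H.IsCohomology) (k : ℕ) (hk : 1 ≤ k)
    (hX : InDivisor H (2 * 4 ^ k)) :
    (HilbertSquare H ↔ AssociatedK3 H) ∧
      (HilbertSquare H ↔ ∃ v, H.IsHodge v ∧ ¬ 4 ∣ H.disc v) := by
  obtain ⟨u, hu, hsat, hd⟩ := hX
  have h1 : (∃ v, H.IsHodge v ∧ ¬ 4 ∣ H.disc v) → HilbertSquare H := by
    rintro ⟨v, hv, h4⟩
    exact Pool.Agent.Helper56K9.GS.hSq_pow2 hH hk hu hsat hd hv h4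
  have h2 : AssociatedK3 H → ∃ v, H.IsHodge v ∧ ¬ 4 ∣ H.disc v := fun h =>
    (Pool.Agent.Helper56K9.GS.K3.congruences hH h).two
  have h3 : HilbertSquare H → AssociatedK3 H := fun h => Pool.Agent.Helper56K9.GS.HSq.k3 hH h
  exact ⟨⟨h3, fun h => h1 (h2 h)⟩, ⟨fun h => h2 (h3 h), h1⟩⟩

end Pool.Agent.Results.MP_4d0966_ag.PowersOfTwo
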