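import Pool.Agent.Helper56K9.GS.Planes

/-!
# The conjectures of Galkin and Shinder and of Hassett and Kuznetsov: rank at least five

Let `X` be a smooth cubic fourfold and `A(X)` the group of the Hodge classes in `H^4(X, ℤ)`. Galkin and
Shinder predict that `X` is rational if and only if `F(X)` is birational to `S^[2]` for a K3 surface `S`
(`HilbertSquare`), Hassett and Kuznetsov predict that `X` is rational if and only if it has an associated
K3 surface (`AssociatedK3`). The first condition implies the second, and the converse is wrong if `A(X)`
has rank two (Addington: `d = 74`). The following is proved.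

If the rank of `A(X)` is at least five, then the two conditions are equivalent, so that the two
conjectures are equivalent for these `X`; and both conditions are equivalent to congruences for the
discriminants of the Hodge classes (`Congruences`). If the rank is at least thirteen, then both
conditions hold (for `AssociatedK3` this is known).

The known properties of `H^4(X, ℤ)` which are used are the fields of `H4.IsCohomology`. The theorem of
Addington which translates `F(X) ~ S^[2]` is used in the definition `HilbertSquare`, and the theorems of
Hassett, Addington and Thomas in the definition `AssociatedK3`.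

Idea of the proof. One has to represent a number `(m ^ 2 + 3) / 2` by the discriminant, which is a
positive definite quadratic form on `A(X) / ℤ h`. The congruences give solutions modulo all integers. By
the theorem of Meyer (which is proved in earlier files), if the rank is at least five then some Hodge
class `u` has a discriminant `2 a ^ 2`, `a ≠ 0`. Then `2 disc (v + x u) - m ^ 2` factors, up to a term
which does not contain `x` and `m`, and one can choose one of the factors as a fixed number times a
prime number in a residue class (Dirichlet); two more variables are chosen such that this prime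
number divides.
-/

set_option autoImplicit false

namespace Pool.Agent.Results.MP_4d0966_ag.RankFive

open Pool.Agent.Y95.Q

variable {X : CubicFourfold}

/-- `X` is in the Hassett divisor `C_d`: there is a Hodge class `v` such that `h` and `v` span a
saturated group of discriminant `d`. -/
def InDivisor (H : H4 X) (d : ℤ) : Prop := ∃ v, H.IsHodge v ∧ H.Saturated v ∧ H.disc v = d

/-- `X` is in a Hassett divisor `C_d`, where `d = (2 n ^ 2 + 2 n + 2) / a ^ 2` with integers `a` and `n`.
By a theorem of Addington this means that the variety of lines `F(X)` is birational to the Hilbert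
square `S^[2]` of some K3 surface `S`. -/
def HilbertSquare (H : H4 X) : Prop :=
  ∃ d, (∃ a n : ℤ, a ^ 2 * d = 2 * n ^ 2 + 2 * n + 2) ∧ InDivisor H d

/-- `X` is in a Hassett divisor `C_d` with an admissible `d`. By theorems of Hassett and of Addington
and Thomas this means that `X` has an associated K3 surface, in the sense of Hassett or of
Kuznetsov. -/
def AssociatedK3 (H : H4 X) : Prop := ∃ d, Admissible d ∧ InDivisor H d

/-- Some Hodge class has a discriminant not divisible by `4`; some Hodge class has a discriminant which
is not divisible by `3`, or congruent to `6` modulo `9`; for every odd prime number `p` with `p ≡ 2` modulo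
`3` some Hodge class has a discriminant not divisible by `p`. -/
structure Congruences (H : H4 X) : Prop where
  two : ∃ v, H.IsHodge v ∧ ¬ 4 ∣ H.disc v
  three : ∃ v, H.IsHodge v ∧ (¬ 3 ∣ H.disc v ∨ H.disc v % 9 = 6)
  prime : ∀ p : ℕ, p.Prime → p ≠ 2 → p % 3 = 2 → ∃ v, H.IsHodge v ∧ ¬ (p : ℤ) ∣ H.disc v

/-- The two conditions and the congruences are equivalent. -/
def Equivalent (H : H4 X) : Prop :=
  (HilbertSquare H ↔ AssociatedK3 H) ∧ (HilbertSquare H ↔ Congruences H)

theorem congruences_iff {H : H4 X} : Congruences H ↔ Pool.Agent.Helper56K9.GS.Congruences H :=
  ⟨fun h => ⟨h.two, h.three, h.prime⟩, fun h => ⟨h.two, h.three, h.prime⟩⟩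

theorem equivalent_of {H : H4 X} (hH : H.IsCohomology) (h : Congruences H → HilbertSquare H) :
    Equivalent H :=
  ⟨⟨Pool.Agent.Helper56K9.GS.HSq.k3 hH, fun hk => h
    (congruences_iff.2 (Pool.Agent.Helper56K9.GS.K3.congruences hH hk))⟩,
    ⟨fun hs => congruences_iff.2 (Pool.Agent.Helper56K9.GS.K3.congruences hH
      (Pool.Agent.Helper56K9.GS.HSq.k3 hH hs)), h⟩⟩

/-- **Hilbert squares and associated K3 surfaces of cubic fourfolds with `A(X)` of rank at least
five.** -/
theorem result {H : H4 X} (hH : H.IsCohomology) :
    (5 ≤ H.rank → Equivalent H) ∧ (13 ≤ H.rank → HilbertSquare H ∧ AssociatedK3 H) := by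
  refine ⟨fun hr => equivalent_of hH fun hC =>
    Pool.Agent.Helper56K9.GS.hSq_of_rank hH hr (congruences_iff.1 hC), fun hr => ?_⟩
  have h : HilbertSquare H := Pool.Agent.Helper56K9.GS.hSq_of_rank hH (by omega)
    (Pool.Agent.Helper56K9.GS.congruences_of_rank hH hr)
  exact ⟨h, Pool.Agent.Helper56K9.GS.HSq.k3 hH h⟩

end Pool.Agent.Results.MP_4d0966_ag.RankFive
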