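import Pool.Agent.Helper56K9.GS.Planes
import Pool.Agent.Helper56K9.GS.Rank3

/-!
# The conjectures of Galkin and Shinder and of Hassett and Kuznetsov: the divisors `C_d`, `d = 2 a ^ 2`

Let `X` be a smooth cubic fourfold and `A(X)` the group of the Hodge classes in `H^4(X, ℤ)`. Galkin and
Shinder predict that `X` is rational if and only if `F(X)` is birational to `S^[2]` for a K3 surface `S`
(`HilbertSquare`), Hassett and Kuznetsov predict that `X` is rational if and only if it has an associated
K3 surface (`AssociatedK3`). The following is proved.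

1. If `X` is in `C_18`, then the two conditions are equivalent for every rank of `A(X)`: they hold if and
   only if there is a Hodge class `v` such that `disc v` is not divisible by `3`, or congruent to `6`
   modulo `9`.
2. Let `X` be in a divisor `C_d` with `d = 2 a ^ 2`, `a ≠ 0`. The two conditions and the congruences
   `Congruences` are equivalent if the rank of `A(X)` is at least four. They are equivalent if the
   rank is three and the discriminant of `A(X)` is a square, or contains a prime number which does
   not divide `2 a` to an odd power.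
3. In 2., both conditions hold, for every rank, if the product `3 u.v - (u.h) (v.h)` of the class `u` of
   discriminant `d` with some Hodge class `v` is prime to `a`.

The known properties of `H^4(X, ℤ)` which are used are the fields of `H4.IsCohomology`. The theorem of
Addington which translates `F(X) ~ S^[2]` is used in the definition `HilbertSquare`, and the theorems of
Hassett, Addington and Thomas in the definition `AssociatedK3`.

Idea of the proof. One has to solve `2 disc v - m ^ 2 = 3`. In 1. and 3. there are explicit solutions. In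
2. one writes the equation for `v + x u` as a product which is equal to a polynomial in the other
variables, and chooses one factor as a fixed number times a prime number in a residue class. In
rank three the prime number must also be such that the discriminant of `A(X)` is a square modulo
it, and one needs the law of quadratic reciprocity.
-/

set_option autoImplicit false

namespace Pool.Agent.Results.MP_4d0966_ag.TwiceSquares

open Pool.Agent.Y95.Q

variable {X : CubicFourfold}

/-- `X` is in the Hassett divisor `C_d`: there is a Hodge class `v` such that `h` and `v` span a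
saturated group of discriminant `d`. -/
def InDivisor (H : H4 X) (d : ℤ) : Prop := ∃ v, H.IsHodge v ∧ H.Saturated v ∧ H.disc v = d

/-- `X` is in a Hassett divisor `C_d`, where `d = (2 n ^ 2 + 2 n + 2) / a ^ 2` with integers `a` and `n`.
By a theorem of Addington this means that the variety of lines `F(X)` is birational to the Hilbert
square `S^[2]` of some K3 surface `S`. -/
def HilbertSquare (H : H4 X) : Prop :=
  ∃ d, (∃ a n : ℤ, a ^ 2 * d = 2 * n ^ 2 + 2 * n + 2) ∧ InDivisor H d

/-- `X` is in a Hassett divisor `C_d` with an admissible `d`. By theorems of Hassett and of Addington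
and Thomas this means that `X` has an associated K3 surface, in the sense of Hassett or of
Kuznetsov. -/
def AssociatedK3 (H : H4 X) : Prop := ∃ d, Admissible d ∧ InDivisor H d

/-- Some Hodge class has a discriminant not divisible by `4`; some Hodge class has a discriminant which
is not divisible by `3`, or congruent to `6` modulo `9`; for every odd prime number `p` with `p ≡ 2` modulo
`3` some Hodge class has a discriminant not divisible by `p`. -/
structure Congruences (H : H4 X) : Prop where
  two : ∃ v, H.IsHodge v ∧ ¬ 4 ∣ H.disc v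
  three : ∃ v, H.IsHodge v ∧ (¬ 3 ∣ H.disc v ∨ H.disc v % 9 = 6)
  prime : ∀ p : ℕ, p.Prime → p ≠ 2 → p % 3 = 2 → ∃ v, H.IsHodge v ∧ ¬ (p : ℤ) ∣ H.disc v

/-- The two conditions and the congruences are equivalent. -/
def Equivalent (H : H4 X) : Prop :=
  (HilbertSquare H ↔ AssociatedK3 H) ∧ (HilbertSquare H ↔ Congruences H)

/-- The product `3 u.v - (u.h) (v.h)`; for `u = v` this is the discriminant. -/
def prod (H : H4 X) (u v : Fin 23 → ℤ) : ℤ := 3 * H.ip u v - H.ip u H.h * H.ip v H.h

/-- The discriminant of the group spanned by `h`, `u` and `v`. -/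
noncomputable def disc3 (H : H4 X) (u v : Fin 23 → ℤ) : ℤ :=
  Matrix.det !![H.ip H.h H.h, H.ip H.h u, H.ip H.h v;
    H.ip u H.h, H.ip u u, H.ip u v;
    H.ip v H.h, H.ip v u, H.ip v v]

theorem congruences_iff {H : H4 X} : Congruences H ↔ Pool.Agent.Helper56K9.GS.Congruences H :=
  ⟨fun h => ⟨h.two, h.three, h.prime⟩, fun h => ⟨h.two, h.three, h.prime⟩⟩

theorem equivalent_of {H : H4 X} (hH : H.IsCohomology) (h : Congruences H → HilbertSquare H) :
    Equivalent H :=
  ⟨⟨Pool.Agent.Helper56K9.GS.HSq.k3 hH, fun hk => h
    (congruences_iff.2 (Pool.Agent.Helper56K9.GS.K3.congruences hH hk))⟩,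
    ⟨fun hs => congruences_iff.2 (Pool.Agent.Helper56K9.GS.K3.congruences hH
      (Pool.Agent.Helper56K9.GS.HSq.k3 hH hs)), h⟩⟩

theorem disc3_eq {H : H4 X} (hH : H.IsCohomology) (u v : Fin 23 → ℤ) :
    3 * (H.disc u * H.disc v - Pool.Agent.Helper56K9.GS.bil H u v ^ 2) = 9 * disc3 H u v := by
  rw [disc3, Matrix.det_fin_three, Pool.Agent.Helper56K9.GS.bil_apply]
  simp only [H4.disc, hH.h_self, hH.comm u H.h, hH.comm v H.h, hH.comm v u, Matrix.of_apply,
    Matrix.cons_val', Matrix.cons_val_zero, Matrix.cons_val_one, Matrix.cons_val,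
    Matrix.cons_val_fin_one]
  ring

/-- **The divisors `C_18` and `C_d`, `d = 2 a ^ 2`.** -/
theorem result {H : H4 X} (hH : H.IsCohomology) :
    (InDivisor H 18 → (HilbertSquare H ↔ AssociatedK3 H) ∧
      (HilbertSquare H ↔ ∃ v, H.IsHodge v ∧ (¬ 3 ∣ H.disc v ∨ H.disc v % 9 = 6))) ∧
    (∀ (a : ℤ) (u : Fin 23 → ℤ), a ≠ 0 → H.IsHodge u → H.disc u = 2 * a ^ 2 →
      (4 ≤ H.rank → Equivalent H) ∧
      (∀ v, H.IsHodge v → H.rank = 3 → disc3 H u v ≠ 0 → (IsSquare (disc3 H u v) ∨
        ∃ p : ℕ, p.Prime ∧ ¬ (p : ℤ) ∣ 2 * a ∧ Odd (padicValInt p (disc3 H u v))) →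
          Equivalent H) ∧
      (∀ v, H.IsHodge v → IsCoprime (prod H u v) a → HilbertSquare H ∧ AssociatedK3 H)) := by
  refine ⟨?_, ?_⟩
  · rintro ⟨u, hu, -, h18⟩
    have h1 : ∀ v, H.IsHodge v → (¬ 3 ∣ H.disc v ∨ H.disc v % 9 = 6) → HilbertSquare H := by
      intro v hv h3
      obtain ⟨w, n, hw, hn⟩ := Pool.Agent.Helper56K9.GS.value18 hH hu hv h18 h3
      exact Pool.Agent.Helper56K9.GS.hSq_of_value hH hw hn
    refine ⟨⟨Pool.Agent.Helper56K9.GS.HSq.k3 hH, fun hk => ?_⟩, ⟨fun hs => ?_, ?_⟩⟩
    · obtain ⟨v, hv, h3⟩ := (Pool.Agent.Helper56K9.GS.K3.congruences hH hk).three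
      exact h1 v hv h3
    · exact (Pool.Agent.Helper56K9.GS.K3.congruences hH
        (Pool.Agent.Helper56K9.GS.HSq.k3 hH hs)).three
    · rintro ⟨v, hv, h3⟩
      exact h1 v hv h3
  · intro a u ha hu hua
    refine ⟨fun hr => equivalent_of hH fun hC => ?_,
      fun v hv hr hne hD => equivalent_of hH fun hC => ?_, fun v hv hc => ?_⟩
    · exact Pool.Agent.Helper56K9.GS.hSq_of_iso hH hr hu (k := 2 * a)
        (mul_ne_zero two_ne_zero ha) (by rw [hua]; ring) (congruences_iff.1 hC)
    · have h9 := disc3_eq hH u v
      refine Pool.Agent.Helper56K9.GS.hSq_of_three hH hr hu hv ha hua ?_ ?_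
        (congruences_iff.1 hC)
      · intro h0
        rw [h0, mul_zero] at h9
        omega
      · rcases hD with ⟨r, hr2⟩ | ⟨p, hp, hpa, hodd⟩
        · exact Or.inl ⟨3 * r, by rw [h9, hr2]; ring⟩
        · right
          have : Fact p.Prime := ⟨hp⟩
          obtain ⟨i, hi⟩ := hodd
          have hpow : (p : ℤ) ^ (padicValInt p (disc3 H u v)) ∣ disc3 H u v :=
            padicValInt_dvd _
          obtain ⟨D', hD'⟩ := hpow
          have hnd : ¬ (p : ℤ) ∣ D' := by
            rintro ⟨e, rfl⟩
            have h3 : (p : ℤ) ^ (padicValInt p (disc3 H u v) + 1) ∣ disc3 H u v :=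
              ⟨e, by rw [pow_succ, mul_assoc]; exact hD'⟩
            rw [padicValInt_dvd_iff] at h3
            rcases h3 with h3 | h3
            · exact hne h3
            · omega
          have hpZ : Prime (p : ℤ) := Nat.prime_iff_prime_int.1 hp
          by_cases hp3 : p = 3
          · refine ⟨p, i + 1, D', hp, hpa, hnd, ?_⟩
            rw [h9, hD', hi, hp3]
            push_cast
            ring
          · refine ⟨p, i, 9 * D', hp, hpa, ?_, ?_⟩
            · intro h
              rcases hpZ.dvd_or_dvd h with h | h
              · have h3 : (p : ℤ) ∣ 3 ^ 2 := by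
                  norm_num
                  exact h
                have h4 := hpZ.dvd_of_dvd_pow h3
                exact hp3 ((Nat.prime_dvd_prime_iff_eq hp Nat.prime_three).1
                  (by exact_mod_cast h4))
              · exact hnd h
            · rw [h9, hD', hi]
              ring
    · obtain ⟨w, n, hw, hn⟩ := Pool.Agent.Helper56K9.GS.valueCoprime hH hu hv hua hc
      have h := Pool.Agent.Helper56K9.GS.hSq_of_value hH hw hn
      exact ⟨h, Pool.Agent.Helper56K9.GS.HSq.k3 hH h⟩

end Pool.Agent.Results.MP_4d0966_ag.TwiceSquares
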